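import Pool.Agent.Y161.FSP.Part2

/-!
# Subcubic and bipartite planar graphs: far apart vertices are free, partitions into free sets

* In a planar graph of maximum degree at most three every set of vertices at pairwise distance at
  least four is a free set; the vertices can be coloured with 22 colours so that every monochromatic
  set is free.
* In a bipartite planar graph (no bound on the degrees) every set of vertices at pairwise distance
  at least three is a free set; if the maximum degree is at most `D`, the vertices can be coloured
  with `D ^ 2 + 1` colours so that every monochromatic set is free.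
-/

set_option autoImplicit false

namespace Pool.Agent.Results.MP_b306af_co.PartitionIntoFreeSets

/-- `p` is a straight-line crossing-free drawing of `G`: distinct vertices are distinct points, no
vertex lies on the closed segment of an edge except its two ends, and the segments of two different
edges meet only in a common end vertex. -/
def Drawing {V : Type} (G : SimpleGraph V) (p : V → ℝ × ℝ) : Prop :=
  Function.Injective p ∧
    (∀ u v w : V, G.Adj u v → w ≠ u → w ≠ v → p w ∉ segment ℝ (p u) (p v)) ∧
    (∀ u v x y : V, G.Adj u v → G.Adj x y → s(u, v) ≠ s(x, y) →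
      ∀ z ∈ segment ℝ (p u) (p v), z ∈ segment ℝ (p x) (p y) →
        ∃ w : V, (w = u ∨ w = v) ∧ (w = x ∨ w = y) ∧ z = p w)

/-- `G` is planar (it has a straight-line crossing-free drawing) -/
def Planar {V : Type} (G : SimpleGraph V) : Prop := ∃ p : V → ℝ × ℝ, Drawing G p

/-- maximum degree at most `D` -/
def MaxDegree {V : Type} (G : SimpleGraph V) (D : ℕ) : Prop := ∀ v, Set.ncard {x | G.Adj v x} ≤ D

/-- `S` is a free set of `G`: its elements can be listed as `v 0, …, v (s-1)` (each once) such that for
all reals `x 0 < … < x (s-1)` and all reals `y 0, …, y (s-1)` there is a straight-line crossing-free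
drawing of `G` that places `v i` at `(x i, y i)` for every `i`. -/
def IsFreeSet {V : Type} (G : SimpleGraph V) (S : Finset V) : Prop :=
  ∃ v : Fin S.card → V, Function.Injective v ∧ (∀ a, a ∈ S ↔ ∃ i, v i = a) ∧
    ∀ x y : Fin S.card → ℝ, StrictMono x →
      ∃ p : V → ℝ × ℝ, Drawing G p ∧ ∀ i, p (v i) = (x i, y i)

/-- `d` is smaller than the distance in `G` of any two different elements of `S` -/
def FartherThan {V : Type} (G : SimpleGraph V) (S : Finset V) (d : ℕ) : Prop :=
  ∀ v ∈ S, ∀ w ∈ S, v ≠ w → ∀ q : G.Walk v w, d < q.length

/-- the vertices can be coloured with `k` colours so that every monochromatic set is a free set -/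
def PartitionIntoFree {V : Type} (G : SimpleGraph V) (k : ℕ) : Prop :=
  ∃ f : V → Fin k, ∀ S : Finset V, (∀ v ∈ S, ∀ w ∈ S, f v = f w) → IsFreeSet G S

/-- every set `X` of vertices of `G` contains a free set `S` of `G` with `|X| ≤ k |S|` -/
def FreeSubsets {V : Type} (G : SimpleGraph V) (k : ℕ) : Prop :=
  ∀ X : Finset V, ∃ S : Finset V, S ⊆ X ∧ IsFreeSet G S ∧ X.card ≤ k * S.card

theorem subsets_of_partition {V : Type} {G : SimpleGraph V} (m : ℕ)
    (h : PartitionIntoFree G (m + 1)) : FreeSubsets G (m + 1) := by
  obtain ⟨f, hf⟩ := h
  intro X
  obtain ⟨S, h1, h2, h3⟩ := Pool.Agent.Y161.FSP2.pick m f X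
  exact ⟨S, h1, hf S h2, h3⟩

/-- **Planar graphs of maximum degree three, and bipartite planar graphs.** (a) In every planar graph
of maximum degree at most three, every set of vertices at pairwise distance at least four is a free
set; the vertices can be coloured with 22 colours so that every monochromatic set is a free set; so
every `X ⊆ V(G)` contains a free set with at least `|X| / 22` elements. (b) In every bipartite planar
graph, without any bound on the degrees, every set of vertices at pairwise distance at least three is
a free set; and for every `D`, if the maximum degree is at most `D`, then the vertices can be coloured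
with `D ^ 2 + 1` colours so that every monochromatic set is a free set, so every `X ⊆ V(G)` contains a
free set with at least `|X| / (D ^ 2 + 1)` elements. -/
theorem result :
    (∀ (V : Type) [Fintype V] (G : SimpleGraph V), Planar G → MaxDegree G 3 →
      (∀ S : Finset V, FartherThan G S 3 → IsFreeSet G S) ∧
        PartitionIntoFree G 22 ∧ FreeSubsets G 22) ∧
    (∀ (V : Type) [Fintype V] (G : SimpleGraph V), Planar G → G.Colorable 2 →
      (∀ S : Finset V, FartherThan G S 2 → IsFreeSet G S) ∧
        ∀ D : ℕ, MaxDegree G D →
          PartitionIntoFree G (D ^ 2 + 1) ∧ FreeSubsets G (D ^ 2 + 1)) := by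
  classical
  constructor
  · intro V _ G hP hG
    have hpart : PartitionIntoFree G 22 := by
      obtain ⟨f, hf⟩ := Pool.Agent.Y161.FSP2.cubicPart G hP hG
      exact ⟨f, fun S hS => (hf S hS).1⟩
    refine ⟨fun S hS => ?_, hpart, subsets_of_partition 21 hpart⟩
    refine (Pool.Agent.Y161.FSP2.cubicFree G hP hG S fun v hv w hw hvw => ⟨?_, ?_, ?_⟩).1
    · intro h
      have := hS v hv w hw hvw h.toWalk
      simp at this
    · rintro x ⟨h1, h2⟩
      have := hS v hv w hw hvw (SimpleGraph.Walk.cons h1 h2.symm.toWalk)
      simp at this
    · intro x y h1 h2 h3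
      have := hS v hv w hw hvw
        (SimpleGraph.Walk.cons h1 (SimpleGraph.Walk.cons h3 h2.symm.toWalk))
      simp at this
  · intro V _ G hP hc
    refine ⟨fun S hS => ?_, fun D hG => ?_⟩
    · refine (Pool.Agent.Y161.FSP2.bipFree G hP hc S fun v hv w hw hvw => ⟨?_, ?_⟩).1
      · intro h
        have := hS v hv w hw hvw h.toWalk
        simp at this
      · rintro x ⟨h1, h2⟩
        have := hS v hv w hw hvw (SimpleGraph.Walk.cons h1 h2.symm.toWalk)
        simp at this
    · have hpart : PartitionIntoFree G (D ^ 2 + 1) := by
        obtain ⟨f, hf⟩ := Pool.Agent.Y161.FSP2.bipPart G hP hc D hG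
        rw [sq]
        exact ⟨f, fun S hS => (hf S hS).1⟩
      exact ⟨hpart, subsets_of_partition _ hpart⟩

end Pool.Agent.Results.MP_b306af_co.PartitionIntoFreeSets
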